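import Pool.Agent.Helper34_LCI.UNQ
import Pool.Agent.Helper23_LCI.SPN
import Pool.Agent.Helper46_LCI.PSI
import Pool.Agent.Helper10_LCI.CDR
import Pool.Agent.Helper45_LCI.CHN
import Pool.Agent.Helper51_LCI.JPS
import Pool.Agent.Helper77_LCI.DTM
import Pool.Agent.Helper19_LCI.MDX
import Pool.Agent.Helper7_LCI.LIE
import Pool.Agent.Helper98_LCI.VAL
import Pool.Agent.Helper53_LCI.GEB
import Pool.Agent.Helper39_LCI.SUP
import Pool.Agent.Helper88_LCI.CRA
import Pool.Agent.Helper8_LCI.RED
import Pool.Agent.Helper1_LCI.KEY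
import Pool.Agent.Helper89_LCI.FLC
import Pool.Agent.Helper15_LCI.INV

/-! Assembly of the invariance theorem (squad LCI). -/

namespace Pool.Agent.LCI.H9

open Pool.Agent.LCI

theorem invF : InvStmt := by
  have hunq := H34.unq
  have hspn := H23.spn hunq
  have hpsi := H46.psiRow
  have hcdr := H10.cdr
  have hchn := H45.chn hunq hpsi hcdr
  have hjps := H51.jps hpsi hchn
  have hmdx := H19.mdx hspn hpsi hcdr
  have hlie := H7.lie hpsi hcdr H77.dtm hmdx
  have hkey := H1.key hpsi hcdr hjps hlie H53.geb H39.sup (H88.cra hspn hcdr)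
  exact H15.inv H98.val H8.red hkey H89.flc

end Pool.Agent.LCI.H9
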